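import Mathlib

/-!
Irreducible elementary nets of `R`-modules that are not closed.

`R` is a principal ideal domain which is not a field, `K` a proper algebraic extension of its
field of fractions `k`.  Choose `θ ∈ K \\ k` integral over `R`, `S = R[θ]`, a nonzero nonunit
`q ∈ R`, and let `σ₁₂ = R + q² S`, `σ₂₁ = S`, `σᵢⱼ = q S` for the remaining places.
This is an irreducible elementary net, and `E(σ)` contains `t₁₂(-θ)` because
`w = t₁₂(1) t₂₁(-1) t₁₂(1)` conjugates `t₂₁(θ)` to `t₁₂(-θ)`.
-/

namespace Pool.Agent.Results.MP_9bf48e_al.NonClosedNets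

open Matrix

/-- An elementary net of order `n` over `K` all of whose members are `R`-submodules of `K`
(the values at the diagonal places `(i, i)` play no role). -/
def IsElementaryNet {R K : Type*} [CommRing R] [Field K] [Algebra R K] {n : ℕ}
    (σ : Fin n → Fin n → Submodule R K) : Prop :=
  ∀ i r j : Fin n, i ≠ r → r ≠ j → i ≠ j → ∀ a ∈ σ i r, ∀ b ∈ σ r j, a * b ∈ σ i j

/-- All members of the net are nonzero. -/
def IsIrreducibleNet {R K : Type*} [CommRing R] [Field K] [Algebra R K] {n : ℕ}
    (σ : Fin n → Fin n → Submodule R K) : Prop :=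
  ∀ i j : Fin n, i ≠ j → σ i j ≠ ⊥

/-- The elementary net subgroup `E(σ)` of `GL(n, K)`, generated by the elementary transvections
`t_ij(a) = 1 + a e_ij` with `i ≠ j` and `a ∈ σ_ij`. -/
def elementaryGroup {R K : Type*} [CommRing R] [Field K] [Algebra R K] {n : ℕ}
    (σ : Fin n → Fin n → Submodule R K) : Subgroup (GL (Fin n) K) :=
  Subgroup.closure {g | ∃ i j : Fin n, i ≠ j ∧ ∃ a ∈ σ i j,
    (g : Matrix (Fin n) (Fin n) K) = 1 + Matrix.single i j a}

/-- The net is closed: the elementary transvections in `E(σ)` are those with `a ∈ σ_ij`. -/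
def IsClosedNet {R K : Type*} [CommRing R] [Field K] [Algebra R K] {n : ℕ}
    (σ : Fin n → Fin n → Submodule R K) : Prop :=
  ∀ i j : Fin n, i ≠ j → ∀ a : K, ∀ g ∈ elementaryGroup σ,
    (g : Matrix (Fin n) (Fin n) K) = 1 + Matrix.single i j a → a ∈ σ i j

section Construction

variable {R K : Type*} [CommRing R] [Field K] [Algebra R K]

/-- `q S` -/
def modI (S : Subalgebra R K) (q : R) : Submodule R K where
  carrier := {x | ∃ s ∈ S, x = algebraMap R K q * s}
  zero_mem' := ⟨0, S.zero_mem, by simp⟩
  add_mem' := by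
    rintro _ _ ⟨s, hs, rfl⟩ ⟨t, ht, rfl⟩
    exact ⟨s + t, S.add_mem hs ht, by ring⟩
  smul_mem' := by
    rintro c _ ⟨s, hs, rfl⟩
    exact ⟨c • s, S.smul_mem hs c, by simp [Algebra.smul_def]; ring⟩

/-- `R + q² S` -/
def modA (S : Subalgebra R K) (q : R) : Submodule R K where
  carrier := {x | ∃ r : R, ∃ s ∈ S, x = algebraMap R K r + algebraMap R K q * algebraMap R K q * s}
  zero_mem' := ⟨0, 0, S.zero_mem, by simp⟩
  add_mem' := by
    rintro _ _ ⟨r, s, hs, rfl⟩ ⟨r', t, ht, rfl⟩
    exact ⟨r + r', s + t, S.add_mem hs ht, by rw [map_add]; ring⟩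
  smul_mem' := by
    rintro c _ ⟨r, s, hs, rfl⟩
    exact ⟨c * r, c • s, S.smul_mem hs c, by simp [Algebra.smul_def]; ring⟩

/-- The net. -/
def net (S : Subalgebra R K) (q : R) {n : ℕ} (i₀ i₁ : Fin n) (i j : Fin n) : Submodule R K :=
  if i = i₀ ∧ j = i₁ then modA S q
  else if i = i₁ ∧ j = i₀ then Subalgebra.toSubmodule S
  else modI S q

lemma modA_le (S : Subalgebra R K) (q : R) {x : K} (hx : x ∈ modA S q) : x ∈ S := by
  obtain ⟨r, s, hs, rfl⟩ := hx
  exact S.add_mem (S.algebraMap_mem r)
    (S.mul_mem (S.mul_mem (S.algebraMap_mem q) (S.algebraMap_mem q)) hs)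

lemma modI_le (S : Subalgebra R K) (q : R) {x : K} (hx : x ∈ modI S q) : x ∈ S := by
  obtain ⟨s, hs, rfl⟩ := hx
  exact S.mul_mem (S.algebraMap_mem q) hs

lemma net_le (S : Subalgebra R K) (q : R) {n : ℕ} (i₀ i₁ i j : Fin n) {x : K}
    (hx : x ∈ net S q i₀ i₁ i j) : x ∈ S := by
  unfold net at hx
  split_ifs at hx
  · exact modA_le S q hx
  · exact hx
  · exact modI_le S q hx

lemma net_isElementary (S : Subalgebra R K) (q : R) {n : ℕ} (i₀ i₁ : Fin n) :
    IsElementaryNet (net S q i₀ i₁) := by
  intro i r j hir hrj hij a ha b hb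
  have haS := net_le S q i₀ i₁ i r ha
  have hbS := net_le S q i₀ i₁ r j hb
  by_cases h1 : i = i₀ ∧ j = i₁
  · obtain ⟨rfl, rfl⟩ := h1
    unfold net at ha hb ⊢
    rw [if_neg (by tauto), if_neg (by tauto)] at ha hb
    rw [if_pos ⟨rfl, rfl⟩]
    obtain ⟨s, hs, rfl⟩ := ha
    obtain ⟨t, ht, rfl⟩ := hb
    exact ⟨0, s * t, S.mul_mem hs ht, by rw [map_zero]; ring⟩
  · by_cases h2 : i = i₁ ∧ j = i₀
    · unfold net
      rw [if_neg h1, if_pos h2]
      exact S.mul_mem haS hbS
    · -- one of the factors is in `q S`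
      unfold net
      rw [if_neg h1, if_neg h2]
      by_cases h3 : (i = i₀ ∧ r = i₁) ∨ (i = i₁ ∧ r = i₀)
      · have h4 : b ∈ modI S q := by
          unfold net at hb
          rcases h3 with ⟨h5, h6⟩ | ⟨h5, h6⟩
          · rw [if_neg (fun h => by
                apply hir
                rw [h5, h.1]), if_neg (fun h => by
                apply hij
                rw [h5, h.2])] at hb
            exact hb
          · rw [if_neg (fun h => by
                apply hij
                rw [h5, h.2]), if_neg (fun h => by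
                apply hir
                rw [h5, h.1])] at hb
            exact hb
        obtain ⟨t, ht, rfl⟩ := h4
        exact ⟨a * t, S.mul_mem haS ht, by ring⟩
      · have h4 : a ∈ modI S q := by
          unfold net at ha
          rw [if_neg (by tauto), if_neg (by tauto)] at ha
          exact ha
        obtain ⟨t, ht, rfl⟩ := h4
        exact ⟨t * b, S.mul_mem ht hbS, by ring⟩

lemma net_irreducible (S : Subalgebra R K) (q : R) (hq : algebraMap R K q ≠ 0) {n : ℕ}
    (i₀ i₁ : Fin n) : IsIrreducibleNet (net S q i₀ i₁) := by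
  intro i j _
  unfold net
  split_ifs
  · rw [Submodule.ne_bot_iff]
    exact ⟨1, ⟨1, 0, S.zero_mem, by simp⟩, one_ne_zero⟩
  · rw [Submodule.ne_bot_iff]
    exact ⟨1, S.one_mem, one_ne_zero⟩
  · rw [Submodule.ne_bot_iff]
    exact ⟨algebraMap R K q, ⟨1, S.one_mem, by simp⟩, hq⟩

/-- elementary transvections as elements of `GL` -/
def tr {n : ℕ} (i j : Fin n) (h : i ≠ j) (c : K) : GL (Fin n) K where
  val := 1 + Matrix.single i j c
  inv := 1 + Matrix.single i j (-c)
  val_inv := by
    have := Matrix.transvection_mul_transvection_same (i := i) (j := j) h c (-c)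
    simpa [Matrix.transvection] using this
  inv_val := by
    have := Matrix.transvection_mul_transvection_same (i := i) (j := j) h (-c) c
    simpa [Matrix.transvection] using this

lemma conj_identity {n : ℕ} (i j : Fin n) (h : i ≠ j) (c : K) :
    (1 + Matrix.single i j (1 : K)) * (1 + Matrix.single j i (-1 : K)) *
        (1 + Matrix.single i j (1 : K)) * (1 + Matrix.single j i c)
      = (1 + Matrix.single i j (-c)) * ((1 + Matrix.single i j (1 : K)) *
        (1 + Matrix.single j i (-1 : K)) * (1 + Matrix.single i j (1 : K))) := by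
  have haa : Matrix.single i j (1 : K) * Matrix.single i j (1 : K) = 0 :=
    Matrix.single_mul_single_of_ne _ _ _ _ h.symm _
  have hbb : Matrix.single j i (1 : K) * Matrix.single j i (1 : K) = 0 :=
    Matrix.single_mul_single_of_ne _ _ _ _ h _
  have haba : Matrix.single i j (1 : K) * Matrix.single j i (1 : K) * Matrix.single i j (1 : K)
      = Matrix.single i j (1 : K) := by
    rw [Matrix.single_mul_single_same, Matrix.single_mul_single_same]
    simp
  have hbab : Matrix.single j i (1 : K) * Matrix.single i j (1 : K) * Matrix.single j i (1 : K)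
      = Matrix.single j i (1 : K) := by
    rw [Matrix.single_mul_single_same, Matrix.single_mul_single_same]
    simp
  have e1 : Matrix.single j i (-1 : K) = -Matrix.single j i (1 : K) := by
    rw [← Matrix.single_neg]
  have e2 : Matrix.single j i c = c • Matrix.single j i (1 : K) := by
    rw [Matrix.smul_single]; simp
  have e3 : Matrix.single i j (-c) = (-c) • Matrix.single i j (1 : K) := by
    rw [Matrix.smul_single]; simp
  rw [e1, e2, e3]
  generalize Matrix.single i j (1 : K) = a at *
  generalize Matrix.single j i (1 : K) = b at *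
  have hw : (1 + a) * (1 + -b) * (1 + a) = 1 + a - b - a * b - b * a := by
    have : (1 + a) * (1 + -b) * (1 + a)
        = 1 + a - b - a * b - b * a + (a - a * b * a) + a * a := by noncomm_ring
    rw [this, haba, haa]
    simp
  rw [hw]
  have h1 : (1 + a - b - a * b - b * a) * (1 + c • b)
      = (1 + a - b - a * b - b * a) + c • (b + a * b - b * b - a * (b * b) - b * a * b) := by
    rw [mul_add, mul_one, mul_smul_comm]
    congr 2
    noncomm_ring
  have h2 : (1 + (-c) • a) * (1 + a - b - a * b - b * a)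
      = (1 + a - b - a * b - b * a) + (-c) • (a + a * a - a * b - a * a * b - a * b * a) := by
    rw [add_mul, one_mul, smul_mul_assoc]
    congr 2
    noncomm_ring
  rw [h1, h2, hbb, hbab, haa, haba]
  simp

end Construction

/-- For every principal ideal domain `R` that is not a field, every proper algebraic extension
`K` of its field of fractions `k`, and every `n ≥ 2`, there is an irreducible elementary net of
order `n` over `K`, consisting of `R`-submodules of `K`, which is not closed. -/
theorem result (R k K : Type*) [CommRing R] [IsDomain R] [IsPrincipalIdealRing R]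
    (hR : ¬ IsField R) [Field k] [Algebra R k] [IsFractionRing R k]
    [Field K] [Algebra k K] [Algebra R K] [IsScalarTower R k K] [Algebra.IsAlgebraic k K]
    (hK : ¬ Function.Surjective (algebraMap k K)) (n : ℕ) (hn : 2 ≤ n) :
    ∃ σ : Fin n → Fin n → Submodule R K,
      IsElementaryNet σ ∧ IsIrreducibleNet σ ∧ ¬ IsClosedNet σ := by
  classical
  have hinj : Function.Injective (algebraMap R K) := by
    rw [IsScalarTower.algebraMap_eq R k K]
    exact (algebraMap k K).injective.comp (IsFractionRing.injective R k)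
  -- a nonzero nonunit
  obtain ⟨q, hq0, hqu⟩ : ∃ q : R, q ≠ 0 ∧ ¬ IsUnit q := by
    by_contra hcon
    push Not at hcon
    apply hR
    exact ⟨⟨0, 1, zero_ne_one⟩, mul_comm, fun {a} ha => by
      obtain ⟨u, hu⟩ := hcon a ha
      exact ⟨↑u⁻¹, by rw [← hu]; simp⟩⟩
  -- an integral element outside `k`
  obtain ⟨θ, hθint, hθ⟩ : ∃ θ : K, IsIntegral R θ ∧ ∀ x : k, algebraMap k K x ≠ θ := by
    obtain ⟨y, hy⟩ : ∃ y : K, ∀ x : k, algebraMap k K x ≠ y := by
      unfold Function.Surjective at hK
      push Not at hK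
      exact hK
    have hyalg : IsAlgebraic R y :=
      (IsFractionRing.isAlgebraic_iff R k K).2 (Algebra.IsAlgebraic.isAlgebraic y)
    obtain ⟨r, hr0, hr⟩ := hyalg.exists_integral_multiple
    refine ⟨r • y, hr, fun x hx => ?_⟩
    have hr0' : algebraMap R k r ≠ 0 := by
      intro h
      exact hr0 (IsFractionRing.injective R k (by rw [h, map_zero]))
    apply hy ((algebraMap R k r)⁻¹ * x)
    rw [map_mul, hx, Algebra.smul_def, map_inv₀, ← IsScalarTower.algebraMap_apply R k K]
    have : algebraMap R K r ≠ 0 := fun h => hr0 (hinj (by rw [h, map_zero]))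
    field_simp
  have : FaithfulSMul R K := (faithfulSMul_iff_algebraMap_injective R K).2 hinj
  have : Module.IsTorsionFree R K := inferInstance
  let S : Subalgebra R K := Algebra.adjoin R {θ}
  have hθS : θ ∈ S := Algebra.subset_adjoin rfl
  -- `θ` is not in `R + q² S`
  have hθA : θ ∉ modA S q := by
    rintro ⟨r, s, hs, hrs⟩
    let B := Algebra.adjoin.powerBasis' hθint
    have hdim : 1 < B.dim := by
      by_contra hcon
      push Not at hcon
      have h1 : (minpoly R θ).natDegree ≤ 1 := by
        rw [← Algebra.adjoin.powerBasis'_dim hθint]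
        exact hcon
      have h2 : (minpoly R θ).natDegree = 1 := by
        have := minpoly.natDegree_pos hθint
        omega
      have h3 := (minpoly.monic hθint).eq_X_add_C h2
      have h4 := minpoly.aeval R θ
      rw [h3] at h4
      simp only [map_add, Polynomial.aeval_X, Polynomial.aeval_C] at h4
      apply hθ (-(algebraMap R k ((minpoly R θ).coeff 0)))
      rw [map_neg, ← IsScalarTower.algebraMap_apply R k K]
      rw [neg_eq_iff_add_eq_zero, add_comm]
      exact h4
    have hgen : B.gen = ⟨θ, hθS⟩ := Algebra.adjoin.powerBasis'_gen hθint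
    -- coordinate of `θ`
    have h5 : (⟨θ, hθS⟩ : S) = algebraMap R S r + (q * q) • (⟨s, hs⟩ : S) := by
      apply Subtype.ext
      simp only [Subalgebra.coe_add, Subalgebra.coe_algebraMap,
        Algebra.smul_def, map_mul]
      exact hrs
    have h6 : B.basis ⟨1, hdim⟩ = (⟨θ, hθS⟩ : S) := by
      rw [B.basis_eq_pow, hgen, pow_one]
    have h7 : B.basis ⟨0, by omega⟩ = (1 : S) := by
      rw [B.basis_eq_pow, pow_zero]
    have h8 := congrArg (fun x => B.basis.repr x ⟨1, hdim⟩) h5
    simp only [map_add, map_smul, Finsupp.add_apply, Finsupp.smul_apply] at h8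
    rw [← h6, B.basis.repr_self, Finsupp.single_eq_same, Algebra.algebraMap_eq_smul_one, ← h7,
      map_smul, B.basis.repr_self, Finsupp.smul_apply, Finsupp.single_eq_of_ne (by
        intro h
        simp [Fin.ext_iff] at h)] at h8
    rw [smul_zero, zero_add, smul_eq_mul, mul_assoc] at h8
    exact hqu (IsUnit.of_mul_eq_one _ h8.symm)
  have hq : algebraMap R K q ≠ 0 := fun h => hq0 (hinj (by rw [h, map_zero]))
  let i₀ : Fin n := ⟨0, by omega⟩
  let i₁ : Fin n := ⟨1, by omega⟩
  have h01 : i₀ ≠ i₁ := by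
    intro h
    simp [i₀, i₁] at h
  refine ⟨net S q i₀ i₁, net_isElementary S q i₀ i₁, net_irreducible S q hq i₀ i₁, ?_⟩
  intro hcl
  have hg1 : tr i₀ i₁ h01 (1 : K) ∈ elementaryGroup (net S q i₀ i₁) := by
    apply Subgroup.subset_closure
    refine ⟨i₀, i₁, h01, 1, ?_, rfl⟩
    unfold net
    rw [if_pos ⟨rfl, rfl⟩]
    exact ⟨1, 0, S.zero_mem, by simp⟩
  have hg2 : ∀ c ∈ S, tr i₁ i₀ h01.symm c ∈ elementaryGroup (net S q i₀ i₁) := by
    intro c hc
    apply Subgroup.subset_closure
    refine ⟨i₁, i₀, h01.symm, c, ?_, rfl⟩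
    unfold net
    rw [if_neg (fun h => h01 h.1.symm), if_pos ⟨rfl, rfl⟩]
    exact hc
  have hw : tr i₀ i₁ h01 (1 : K) * tr i₁ i₀ h01.symm (-1 : K) * tr i₀ i₁ h01 (1 : K)
      ∈ elementaryGroup (net S q i₀ i₁) :=
    Subgroup.mul_mem _ (Subgroup.mul_mem _ hg1 (hg2 _ (S.neg_mem S.one_mem))) hg1
  have hT : tr i₀ i₁ h01 (-θ) ∈ elementaryGroup (net S q i₀ i₁) := by
    have h := Subgroup.mul_mem _ (Subgroup.mul_mem _ hw (hg2 θ hθS)) (Subgroup.inv_mem _ hw)
    convert h using 1
    rw [eq_mul_inv_iff_mul_eq]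
    apply Units.ext
    simp only [Units.val_mul]
    exact (conj_identity i₀ i₁ h01 θ).symm
  have h := hcl i₀ i₁ h01 (-θ) _ hT rfl
  unfold net at h
  rw [if_pos ⟨rfl, rfl⟩] at h
  apply hθA
  have h' := Submodule.neg_mem _ h
  rwa [neg_neg] at h'

end Pool.Agent.Results.MP_9bf48e_al.NonClosedNets
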